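import Pool.Agent.H78.KP.Stmts
import Pool.Agent.H91.Sym.A1

/-!
# Project KP, module DIA: diagonal changes of variables
-/

set_option autoImplicit false

open MeasureTheory Set Filter Topology
open scoped ContDiff

namespace Pool.Agent.H78.KP

open Pool.Agent.H84 Pool.Agent.H84.Sym Pool.Agent.H84.Sym.P2x Pool.Agent.H19.KL
open Pool.Agent.H73.KG Pool.Agent.H20.KH

section DIA

variable {E : Type} [NormedAddCommGroup E] [InnerProductSpace ℝ E]
    [FiniteDimensional ℝ E] [MeasurableSpace E] [BorelSpace E]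
variable {ι : Type} [Fintype ι]

/-- the diagonal map as a continuous linear map -/
noncomputable def dlL (b : OrthonormalBasis ι ℝ E) (l : ι → ℝ) : E →L[ℝ] E :=
  ∑ i, (l i) • (innerSL ℝ (b i)).smulRight (b i)

omit [FiniteDimensional ℝ E] [MeasurableSpace E] [BorelSpace E] in
theorem dlL_apply (b : OrthonormalBasis ι ℝ E) (l : ι → ℝ) (x : E) : dlL b l x = dl b l x := by
  simp [dlL, dl, smul_smul]

omit [FiniteDimensional ℝ E] [MeasurableSpace E] [BorelSpace E] in
theorem inner_dl (b : OrthonormalBasis ι ℝ E) (l : ι → ℝ) (x : E) (i : ι) :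
    inner ℝ (b i) (dl b l x) = l i * inner ℝ (b i) x := by
  classical
  simp only [dl, inner_sum, inner_smul_right]
  rw [Finset.sum_eq_single i]
  · rw [OrthonormalBasis.inner_eq_one]; ring
  · intro j _ hj
    rw [OrthonormalBasis.inner_eq_zero b (Ne.symm hj)]; ring
  · intro h; exact absurd (Finset.mem_univ i) h

omit [FiniteDimensional ℝ E] [MeasurableSpace E] [BorelSpace E] in
theorem dl_dl (b : OrthonormalBasis ι ℝ E) (l l' : ι → ℝ) (h : ∀ i, l i * l' i = 1) (x : E) :
    dl b l (dl b l' x) = x := by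
  have h1 : ∀ i, inner ℝ (b i) (dl b l (dl b l' x)) = inner ℝ (b i) x := by
    intro i
    rw [inner_dl, inner_dl, ← mul_assoc, h i, one_mul]
  rw [← b.sum_repr' (dl b l (dl b l' x)), ← b.sum_repr' x]
  refine Finset.sum_congr rfl fun i _ => ?_
  rw [b.sum_repr' x, h1 i]

omit [FiniteDimensional ℝ E] [MeasurableSpace E] [BorelSpace E] in
theorem dl_b (b : OrthonormalBasis ι ℝ E) (l : ι → ℝ) (i : ι) : dl b l (b i) = l i • b i := by
  classical
  simp only [dl]
  rw [Finset.sum_eq_single i]
  · rw [OrthonormalBasis.inner_eq_one, mul_one]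
  · intro j _ hj
    rw [OrthonormalBasis.inner_eq_zero b hj]; simp
  · intro h; exact absurd (Finset.mem_univ i) h

/-- the diagonal map as a continuous linear equivalence -/
noncomputable def dlE (b : OrthonormalBasis ι ℝ E) (l : ι → ℝ) (hl : ∀ i, 0 < l i) : E ≃L[ℝ] E :=
  ContinuousLinearEquiv.equivOfInverse (dlL b l) (dlL b (fun i => (l i)⁻¹))
    (fun x => by
      rw [dlL_apply, dlL_apply]
      exact dl_dl b _ _ (fun i => inv_mul_cancel₀ (hl i).ne') x)
    (fun x => by
      rw [dlL_apply, dlL_apply]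
      exact dl_dl b _ _ (fun i => mul_inv_cancel₀ (hl i).ne') x)

omit [FiniteDimensional ℝ E] [MeasurableSpace E] [BorelSpace E] in
theorem dlE_apply (b : OrthonormalBasis ι ℝ E) (l : ι → ℝ) (hl : ∀ i, 0 < l i) (x : E) :
    dlE b l hl x = dl b l x := by
  rw [← dlL_apply]; rfl

omit [FiniteDimensional ℝ E] [MeasurableSpace E] [BorelSpace E] in
theorem dlE_coe (b : OrthonormalBasis ι ℝ E) (l : ι → ℝ) (hl : ∀ i, 0 < l i) :
    ((dlE b l hl : E ≃L[ℝ] E) : E →L[ℝ] E) = dlL b l := by
  ext x; rw [dlL_apply]; exact dlE_apply b l hl x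

omit [FiniteDimensional ℝ E] [MeasurableSpace E] [BorelSpace E] in
theorem dl_det (b : OrthonormalBasis ι ℝ E) (l : ι → ℝ) :
    LinearMap.det ((dlL b l : E →L[ℝ] E) : E →ₗ[ℝ] E) = ∏ i, l i := by
  classical
  rw [← LinearMap.det_toMatrix b.toBasis]
  have : LinearMap.toMatrix b.toBasis b.toBasis ((dlL b l : E →L[ℝ] E) : E →ₗ[ℝ] E) =
      Matrix.diagonal l := by
    ext i j
    rw [LinearMap.toMatrix_apply]
    simp only [OrthonormalBasis.coe_toBasis, ContinuousLinearMap.coe_coe, dlL_apply, dl_b]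
    simp only [map_smul, Finsupp.smul_apply, smul_eq_mul]
    rw [Matrix.diagonal_apply]
    have h2 : (b.toBasis.repr (b j)) i = if i = j then (1:ℝ) else 0 := by
      have := b.toBasis.repr_self j
      rw [OrthonormalBasis.coe_toBasis] at this
      rw [this, Finsupp.single_apply]
      simp [eq_comm]
    rw [h2]
    by_cases hij : i = j
    · subst hij; simp
    · simp [hij]
  rw [this, Matrix.det_diagonal]

theorem int_dl (b : OrthonormalBasis ι ℝ E) (l : ι → ℝ) (hl : ∀ i, 0 < l i) (F : E → ℝ) :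
    (∏ i, l i) * ∫ x, F (dl b l x) = ∫ x, F x := by
  have hdet : LinearMap.det ((dlL b l : E →L[ℝ] E) : E →ₗ[ℝ] E) = ∏ i, l i := dl_det b l
  have hpos : 0 < ∏ i, l i := Finset.prod_pos (fun i _ => hl i)
  have hmap := Measure.map_linearMap_addHaar_eq_smul_addHaar (volume : Measure E)
    (f := ((dlL b l : E →L[ℝ] E) : E →ₗ[ℝ] E)) (by rw [hdet]; exact hpos.ne')
  rw [hdet] at hmap
  have h1 : ∫ x, F (dl b l x) = ∫ y, F y ∂(Measure.map (dlE b l hl).toHomeomorph volume) := by
    rw [(dlE b l hl).toHomeomorph.measurableEmbedding.integral_map]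
    congr 1
    ext x
    congr 1
    exact (dlE_apply b l hl x).symm
  have h2 : (Measure.map (dlE b l hl).toHomeomorph (volume : Measure E)) =
      Measure.map ((dlL b l : E →L[ℝ] E) : E →ₗ[ℝ] E) volume := by
    congr 1
  rw [h1, h2, hmap, integral_smul_measure]
  rw [abs_of_pos (inv_pos.mpr hpos), ENNReal.toReal_ofReal (inv_pos.mpr hpos).le, smul_eq_mul,
    ← mul_assoc, mul_inv_cancel₀ hpos.ne', one_mul]

omit [MeasurableSpace E] [BorelSpace E] in
theorem dU_fd (b : OrthonormalBasis ι ℝ E) (l : ι → ℝ) {U : E → ℝ} (hU : Differentiable ℝ U) (x : E) :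
    fderiv ℝ (dU b l U) x = (fderiv ℝ U (dlL b l x)).comp (dlL b l) := by
  have h : dU b l U = fun x => U (dlL b l x) - ∑ i, Real.log (l i) := by
    funext y; simp only [dU, dlL_apply]
  rw [h, fderiv_sub_const]
  have h2 : HasFDerivAt (fun y => U (dlL b l y)) ((fderiv ℝ U (dlL b l x)).comp (dlL b l)) x :=
    (hU (dlL b l x)).hasFDerivAt.comp x (dlL b l).hasFDerivAt
  exact h2.fderiv

omit [MeasurableSpace E] [BorelSpace E] in
theorem dU_hess (b : OrthonormalBasis ι ℝ E) (l : ι → ℝ) {U : E → ℝ} (hU : ContDiff ℝ 2 U)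
    (x v w : E) : fderiv ℝ (fderiv ℝ (dU b l U)) x v w =
      fderiv ℝ (fderiv ℝ U) (dl b l x) (dl b l v) (dl b l w) := by
  have h0 : Differentiable ℝ U := hU.differentiable (by norm_num)
  have h1 : Differentiable ℝ (fderiv ℝ U) :=
    (hU.fderiv_right (m := 1) (by norm_num)).differentiable (by norm_num)
  have h : fderiv ℝ (dU b l U) = fun x => (fderiv ℝ U (dlL b l x)).comp (dlL b l) := by
    funext y; exact dU_fd b l h0 y
  rw [h]
  have h2 : HasFDerivAt (fun y => fderiv ℝ U (dlL b l y))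
      ((fderiv ℝ (fderiv ℝ U) (dlL b l x)).comp (dlL b l)) x :=
    (h1 (dlL b l x)).hasFDerivAt.comp x (dlL b l).hasFDerivAt
  have h3 : HasFDerivAt (fun y => (fderiv ℝ U (dlL b l y)).comp (dlL b l))
      (((ContinuousLinearMap.compL ℝ E E ℝ).flip (dlL b l)).comp
        ((fderiv ℝ (fderiv ℝ U) (dlL b l x)).comp (dlL b l))) x :=
    ((ContinuousLinearMap.compL ℝ E E ℝ).flip (dlL b l)).hasFDerivAt.comp x h2
  rw [h3.fderiv]
  simp [dlL_apply]

/-- DIA -/
theorem dia_thm : DIAStmt E := by
  intro U t hU ι _ _ b l hl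
  obtain ⟨⟨C, hP⟩, hprob⟩ := hU
  have h0 : Differentiable ℝ U := hP.smooth.differentiable (by norm_num)
  have hc : Continuous U := h0.continuous
  have hdc : Continuous (dl b l) := by
    have : dl b l = fun x => dlL b l x := by funext x; exact (dlL_apply b l x).symm
    rw [this]; exact (dlL b l).continuous
  have hdUs : ContDiff ℝ 2 (dU b l U) := by
    have : dU b l U = fun x => U (dlL b l x) - ∑ i, Real.log (l i) := by
      funext y; simp only [dU, dlL_apply]
    rw [this]
    exact (hP.smooth.comp (dlL b l).contDiff).sub contDiff_const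
  have hdUc : Continuous (dU b l U) := hdUs.continuous
  have hint : ∀ F : E → ℝ, ∫ x, F (dl b l x) ∂(mu (dU b l U)) = ∫ x, F x ∂(mu U) := by
    intro F
    rw [Pool.Agent.H84.Sym.integral_mu hdUc, Pool.Agent.H84.Sym.integral_mu hc]
    rw [← int_dl b l hl (fun x => F x * Real.exp (-U x)), ← integral_const_mul]
    congr 1
    funext x
    have : Real.exp (-dU b l U x) = (∏ i, l i) * Real.exp (-U (dl b l x)) := by
      rw [dU, neg_sub, sub_eq_add_neg, Real.exp_add, Real.exp_sum]
      congr 1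
      exact Finset.prod_congr rfl fun i _ => Real.exp_log (hl i)
    rw [this]; ring
  refine ⟨fun x v => dU_hess b l hP.smooth x v v, ?_, hint, ?_, ?_, ?_⟩
  · intro t' ht' hh
    refine ⟨⟨C * ‖dlL b l‖ * (1 + ‖dlL b l‖), hdUs, ht', ?_, ?_⟩, ?_⟩
    · intro x v
      rw [dU_hess b l hP.smooth x v v]
      exact hh (dl b l x) v
    · intro x
      rw [dU_fd b l h0]
      have hC : 0 ≤ C := by
        have := (norm_nonneg _).trans (hP.grad 0)
        simpa using this
      have hn := norm_nonneg (dlL b l)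
      have hx := norm_nonneg x
      calc ‖(fderiv ℝ U (dlL b l x)).comp (dlL b l)‖ ≤ ‖fderiv ℝ U (dlL b l x)‖ * ‖dlL b l‖ :=
            ContinuousLinearMap.opNorm_comp_le _ _
        _ ≤ (C * (1 + ‖dlL b l x‖)) * ‖dlL b l‖ := by gcongr; exact hP.grad _
        _ ≤ (C * (1 + ‖dlL b l‖ * ‖x‖)) * ‖dlL b l‖ := by gcongr; exact (dlL b l).le_opNorm x
        _ ≤ C * ‖dlL b l‖ * (1 + ‖dlL b l‖) * (1 + ‖x‖) := by
            have : 0 ≤ C * ‖dlL b l‖ * (‖dlL b l‖ + ‖x‖) := by positivity
            nlinarith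
    · constructor
      have h1 : ∫ _x : E, (1:ℝ) ∂(mu (dU b l U)) = ∫ _x : E, (1:ℝ) ∂(mu U) := hint (fun _ => 1)
      have h2 : ∫ _x : E, (1:ℝ) ∂(mu U) = 1 := by simp
      rw [h2] at h1
      simp only [integral_const, smul_eq_mul, mul_one] at h1
      rw [Measure.real] at h1
      rw [← ENNReal.toReal_eq_one_iff]
      exact h1
  · intro i j
    have hli : ∀ i x, li (b i) x = li (b i) (dl b l x) / l i := by
      intro i x
      rw [li, li, inner_dl]
      field_simp [(hl i).ne']
    have hne := fun i => (hl i).ne'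
    simp only [cm, Matrix.of_apply, H73.KG.cv]
    have e1 : ∫ x, li (b i) x * li (b j) x ∂(mu (dU b l U)) =
        (∫ x, li (b i) x * li (b j) x ∂(mu U)) / (l i * l j) := by
      rw [← hint (fun x => li (b i) x * li (b j) x), ← integral_div]
      congr 1
      funext x
      rw [hli i x, hli j x]
      have := hne i
      have := hne j
      field_simp
    have e2 : ∀ i, ∫ x, li (b i) x ∂(mu (dU b l U)) = (∫ x, li (b i) x ∂(mu U)) / l i := by
      intro i
      rw [← hint (fun x => li (b i) x), ← integral_div]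
      congr 1
      funext x
      exact hli i x
    rw [e1, e2 i, e2 j]
    have := hne i
    have := hne j
    field_simp
  · intro i f x hf
    have hfd : Differentiable ℝ f := hf.differentiable (by norm_num)
    have h : (fun x => f (dl b l x)) = fun x => f (dlL b l x) := by
      funext y; rw [dlL_apply]
    rw [h, D, D]
    have h2 : HasFDerivAt (fun y => f (dlL b l y)) ((fderiv ℝ f (dlL b l x)).comp (dlL b l)) x :=
      (hfd (dlL b l x)).hasFDerivAt.comp x (dlL b l).hasFDerivAt
    rw [h2.fderiv]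
    simp [dlL_apply, dl_b]
  · intro f hf hcs
    have h : (fun x => f (dl b l x)) = fun x => f (dlL b l x) := by
      funext y; rw [dlL_apply]
    constructor
    · rw [h]; exact hf.comp (dlL b l).contDiff
    · have h3 : (fun x => f (dl b l x)) = f ∘ (dlE b l hl).toHomeomorph := by
        funext y
        change f (dl b l y) = f (dlE b l hl y)
        rw [dlE_apply]
      rw [h3]
      exact hcs.comp_homeomorph _

end DIA

end Pool.Agent.H78.KP
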