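import Pool.Agent.H87.KP.DIA

/-!
# Project KP, module AFF: the affine covariant form of `GB`
-/

set_option autoImplicit false

open MeasureTheory Set Filter Topology
open scoped ContDiff

namespace Pool.Agent.H78.KP

open Pool.Agent.H84 Pool.Agent.H84.Sym Pool.Agent.H84.Sym.P2x Pool.Agent.H19.KL
open Pool.Agent.H73.KG Pool.Agent.H20.KH

section AFF

variable {E : Type} [NormedAddCommGroup E] [InnerProductSpace ℝ E]
    [FiniteDimensional ℝ E] [MeasurableSpace E] [BorelSpace E]

/-- AFF -/
theorem aff_thm (hDIA : DIAStmt E) : AFFStmt E := by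
  intro t' g ht' hg hGB U t hU ι _ _ b β hβ hhess f hf hfc
  set l : ι → ℝ := fun i => Real.sqrt (t' / β i) with hl
  have hlpos : ∀ i, 0 < l i := fun i => Real.sqrt_pos.mpr (div_pos ht' (hβ i))
  have hlsq : ∀ i, l i ^ 2 = t' / β i := fun i => Real.sq_sqrt (div_pos ht' (hβ i)).le
  obtain ⟨h1, h2, h3, h4, h5, h6⟩ := hDIA U t hU ι b l hlpos
  have hPP : PP (dU b l U) t' := by
    apply h2 t' ht'
    intro x v
    refine le_trans (le_of_eq ?_) (hhess x (dl b l v))
    rw [← OrthonormalBasis.sum_sq_norm_inner_right b v, Finset.mul_sum]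
    refine Finset.sum_congr rfl fun i _ => ?_
    rw [inner_dl, mul_pow, hlsq, Real.norm_eq_abs, sq_abs]
    have := (hβ i).ne'
    field_simp
  obtain ⟨h7, h8⟩ := h6 f hf hfc
  have key := hGB (dU b l U) hPP ι b (fun x => f (dl b l x)) h7 h8
  have hcv : H73.KG.cv (dU b l U) (fun x => f (dl b l x)) (fun x => f (dl b l x)) =
      H73.KG.cv U f f := by
    simp only [H73.KG.cv]
    rw [h3 (fun x => f x * f x), h3 f]
  rw [hcv] at key
  refine key.trans (le_of_eq ?_)
  congr 1
  obtain ⟨⟨C, hP⟩, hprob⟩ := hU
  have hUc : Continuous U := (hP.smooth.differentiable (by norm_num)).continuous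
  have hDc : ∀ i, Continuous (D (b i) f) := fun i =>
    (contDiff_D (m := 0) hf (by norm_num) (b i)).continuous
  have hDi : ∀ i j, Integrable (fun x => D (b i) f x * D (b j) f x) (mu U) := fun i j =>
    integrable_mu hUc ((hDc i).mul (hDc j)) ((hcs_D hfc (b i)).mul_right)
  have e1 : WD b (cm b (dU b l U) + 1) (dU b l U) (fun x => f (dl b l x)) =
      ∫ x, (∑ i, ∑ j, (cm b (dU b l U) + 1) i j * (l i * D (b i) f x * (l j * D (b j) f x)))
        ∂(mu U) := by
    rw [WD, ← h3 (fun x => ∑ i, ∑ j, (cm b (dU b l U) + 1) i j *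
      (l i * D (b i) f x * (l j * D (b j) f x)))]
    congr 1
    funext x
    refine Finset.sum_congr rfl fun i _ => Finset.sum_congr rfl fun j _ => ?_
    rw [h5 i f x hf, h5 j f x hf]
  rw [e1, WD]
  have e2 : ∀ x, (∑ i, ∑ j, (cm b (dU b l U) + 1) i j * (l i * D (b i) f x * (l j * D (b j) f x))) =
      (∑ i, ∑ j, cm b U i j * (D (b i) f x * D (b j) f x)) + ∑ i, t' / β i * (D (b i) f x) ^ 2 := by
    intro x
    rw [← Finset.sum_add_distrib]
    refine Finset.sum_congr rfl fun i _ => ?_
    have : ∀ j, (cm b (dU b l U) + 1) i j * (l i * D (b i) f x * (l j * D (b j) f x)) =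
        cm b U i j * (D (b i) f x * D (b j) f x) +
          (if i = j then t' / β i * (D (b i) f x) ^ 2 else 0) := by
      intro j
      rw [Matrix.add_apply, h4 i j, Matrix.one_apply]
      have hi := (hlpos i).ne'
      have hj := (hlpos j).ne'
      by_cases hij : i = j
      · subst hij
        rw [if_pos rfl, if_pos rfl, ← hlsq]
        field_simp
      · rw [if_neg hij, if_neg hij]
        field_simp
        ring
    rw [Finset.sum_congr rfl fun j _ => this j, Finset.sum_add_distrib]
    simp
  rw [integral_congr_ae (Eventually.of_forall e2)]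
  rw [integral_add]
  · congr 1
    rw [integral_finset_sum]
    · refine Finset.sum_congr rfl fun i _ => ?_
      rw [integral_const_mul]
    · intro i _
      have := hDi i i
      refine (this.const_mul (t' / β i)).congr (Eventually.of_forall fun x => ?_)
      simp only [sq]
  · refine integrable_finset_sum _ fun i _ => integrable_finset_sum _ fun j _ => ?_
    exact (hDi i j).const_mul _
  · refine integrable_finset_sum _ fun i _ => ?_
    have := hDi i i
    refine (this.const_mul (t' / β i)).congr (Eventually.of_forall fun x => ?_)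
    simp only [sq]

end AFF

end Pool.Agent.H78.KP
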